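import Mathlib
import Pool.Agent.Results.MP_f2148a_nt.AllExponents

/-!
# Hall's conjecture, with exponent `1 / 2` and constant `1`, for all products of powers of integers
from a short interval

The bases are integers of the interval `[t, t + t ^ δ]`, or more generally numbers with small digits
(of either sign) in base `t` and first digit `1` or `-1` (`Bases`); `x` and `y` are products of powers
of the bases (with small coefficients), and all exponents are allowed (`Composed`). The differences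
`y ^ 2 - x ^ 3` are even larger than `|x| ^ (1 / 2) * t ^ (1 - ε)`.
-/

set_option autoImplicit false

namespace Pool.Agent.Results.MP_e734ed_nt.AllExponents

open Polynomial Finset
open Pool.Agent.Results.MP_f2148a_nt.AllExponents (Bases Composed larger)

/-- **Hall's inequality** `|x| ^ (1 / 2) < |y ^ 2 - x ^ 3|`, with almost a factor `t` to spare, for all
products of powers of numbers with small digits in base `t`; and the same inequality, up to `t ^ ε`,
for the part `w` of `y ^ 2 - x ^ 3` prime to `p` if `t` is a power of `p`. -/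
theorem result (K : ℕ) (ε : ℝ) (hε : 0 < ε) : ∃ δ : ℝ, 0 < δ ∧ ∃ t₀ : ℕ, ∀ t : ℕ, t₀ ≤ t →
    ∀ (n : ℕ) (F : Fin n → ℤ[X]), Bases K ((t : ℝ) ^ δ) F →
    ∀ (ξ η : ℤ) (b c : Fin n → ℕ) (x y : ℤ), Composed ((t : ℝ) ^ δ) t F ξ η b c x y →
      y ^ 2 ≠ x ^ 3 →
        |(x : ℝ)| ^ (1 / 2 : ℝ) * (t : ℝ) ^ (1 - ε) ≤ |((y ^ 2 - x ^ 3 : ℤ) : ℝ)| ∧
        ((∀ i, (F i).coeff 0 = 1 ∨ (F i).coeff 0 = -1) → ∀ p v : ℕ, p.Prime → t = p ^ v →
          ∀ (m : ℕ) (w : ℤ), y ^ 2 - x ^ 3 = (p : ℤ) ^ m * w →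
            |(x : ℝ)| ^ (1 / 2 : ℝ) ≤ (t : ℝ) ^ ε * |(w : ℝ)|) := by
  obtain ⟨δ, hδ, t₀, ht₀, h⟩ :=
    Pool.Agent.Results.MP_f2148a_nt.AllExponents.main (K + 3) ε hε
  refine ⟨δ, hδ, t₀, ?_⟩
  intro t ht n F hS ξ η b c x y hC hne
  have hS' : Bases (K + 3) ((t : ℝ) ^ δ) F := ⟨hS.pos, hS.deg.trans (by omega), hS.digits, hS.first⟩
  obtain ⟨hM1, hmm⟩ := h t ht n F hS' ξ η b c x y hC 3 2 (by norm_num) (by omega) (by norm_num)
    (by omega)
  obtain ⟨g1, g2⟩ := hmm (fun h0 => hne h0.symm)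
  have htR : (64 : ℝ) ≤ t := by exact_mod_cast ht₀.trans ht
  have hexp : (1 : ℝ) - 1 / ((3 : ℕ) : ℝ) - 1 / ((2 : ℕ) : ℝ) = 1 / 6 := by norm_num
  rw [hexp] at g1 g2
  have hx0 : 0 ≤ |(x : ℝ)| := abs_nonneg _
  have hx : |(x : ℝ)| ^ (1 / 2 : ℝ) ≤ larger 3 2 x y ^ (1 / 6 : ℝ) := by
    have h1 : |(x : ℝ)| ^ 3 ≤ larger 3 2 x y := le_max_left _ _
    calc |(x : ℝ)| ^ (1 / 2 : ℝ) = (|(x : ℝ)| ^ 3) ^ (1 / 6 : ℝ) := by
          rw [← Real.rpow_natCast, ← Real.rpow_mul hx0]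
          norm_num
      _ ≤ _ := Real.rpow_le_rpow (by positivity) h1 (by norm_num)
  constructor
  · exact (mul_le_mul_of_nonneg_right hx (by positivity)).trans g1
  · intro hlast p v hp htp m w hw
    exact hx.trans (g2 hlast p v hp htp m w hw)

end Pool.Agent.Results.MP_e734ed_nt.AllExponents
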