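import Pool.Agent.Q138.PS.WO
import Pool.Agent.Q138.AJ.Re734eda
import Pool.Agent.Q138.AJ.Re734edb

/-!
# The weak form of Hall's conjecture for pairs which are close to given points

Let `Y` be a metric space. The maps `p` are arbitrary. An example is `p(x, y) = x` in the ring `ℤ_ℓ` of `ℓ`-adic integers (or
in a product of `ℝ` and several such rings) with `τ = 1`: there the integers `x ≥ 0` which are within `1 / x` of `z` are, up to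
bounded factors, the truncations `z mod ℓ ^ k` of the `ℓ`-adic expansion of `z`.

(1) Let `0 ≤ δ ≤ 1 / 2` and `τ > 0`. There is a set `Z ⊆ Y` of Hausdorff dimension at most `(1 / 3 - δ / 6) / τ` such that for
every `z ∈ Y` outside `Z`, all `C` and all `c`, all but finitely many pairs of integers `(x, y)`, `y ^ 2 ≠ x ^ 3`, with
`dist (p (x, y), z) ≤ c |x| ^ (-τ)` satisfy `|y ^ 2 - x ^ 3| > C |x| ^ (1 / 2 - δ)`.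

(2) The same with `dist (p (x, y), z) ≤ c |y| ^ (-τ)` and `(2 / 9 - δ / 9) / τ`.

(3) For `p : ℚ → Y` there is ONE set `Z ⊆ Y` of dimension ZERO such that for `z ∈ Y` outside `Z`, all `n`, `δ, θ > 0` and `D`
there is `K` such that for all large `B`: for all products `x ≥ B ^ K` and `y` of powers (with arbitrary exponents) of `n`
positive integers `≤ B` with `x ^ 3 ≠ y ^ 2` and `dist (p (x ^ 3 / y ^ 2), z) ≤ D B ^ (-θ)`, `|x ^ 3 - y ^ 2| > x ^ (3 - δ)`.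
-/

set_option autoImplicit false

namespace Pool.Agent.Results.MP_e734ed_nt.PairsNearGivenPoints

open Filter Pool.Agent.Q138.PS

/-- the exceptional pairs -/
def Exc (C δ : ℝ) : Set (ℤ × ℤ) :=
  {e : ℤ × ℤ | e.2 ^ 2 ≠ e.1 ^ 3 ∧ |(e.2 : ℝ) ^ 2 - (e.1 : ℝ) ^ 3| ≤ C * |(e.1 : ℝ)| ^ (1 / 2 - δ)}

theorem count_x (C δ : ℝ) (h0 : 0 ≤ δ) (h1 : δ ≤ 1 / 2) (ε : ℝ) (hε : 0 < ε) : ∃ K : ℝ, ∀ X : ℝ, 1 ≤ X →
    {e | e ∈ Exc C δ ∧ |((e.1 : ℤ) : ℝ)| ≤ X}.Finite ∧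
      ({e | e ∈ Exc C δ ∧ |((e.1 : ℤ) : ℝ)| ≤ X}.ncard : ℝ) ≤ K * X ^ (1 / 3 - δ / 6 + ε) := by
  obtain ⟨K, hK⟩ := Pool.Agent.Q138.AJ.Re734eda.result C ε hε
  refine ⟨K, fun X hX => ?_⟩
  have e : {e | e ∈ Exc C δ ∧ |((e.1 : ℤ) : ℝ)| ≤ X} = {e : ℤ × ℤ | |(e.1 : ℝ)| ≤ X ∧ e.2 ^ 2 ≠ e.1 ^ 3 ∧
      |(e.2 : ℝ) ^ 2 - (e.1 : ℝ) ^ 3| ≤ C * |(e.1 : ℝ)| ^ (1 / 2 - δ)} := by
    ext e
    constructor
    · rintro ⟨⟨h2, h3⟩, h4⟩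
      exact ⟨h4, h2, h3⟩
    · rintro ⟨h4, h2, h3⟩
      exact ⟨⟨h2, h3⟩, h4⟩
  rw [e]
  exact hK δ h0 h1 X hX

/-- the first coordinate of an exceptional pair is bounded in terms of the second -/
theorem x_le (C δ : ℝ) (h0 : 0 ≤ δ) (h1 : δ ≤ 1 / 2) (e : ℤ × ℤ) (he : e ∈ Exc C δ) (X : ℝ) (hX : 1 ≤ X)
    (hy : |((e.2 : ℤ) : ℝ)| ≤ X) : |((e.1 : ℤ) : ℝ)| ≤ (2 + 2 * |C|) * X ^ ((2 : ℝ) / 3) := by
  obtain ⟨-, h3⟩ := he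
  set t : ℝ := |((e.1 : ℤ) : ℝ)| with ht
  have hC := abs_nonneg C
  have hX0 : 0 < X := by linarith
  have hP1 : 1 ≤ X ^ ((2 : ℝ) / 3) := Real.one_le_rpow hX (by norm_num)
  by_contra hcon
  push Not at hcon
  have ht1 : 1 < t := by
    have : (1 : ℝ) ≤ (2 + 2 * |C|) * X ^ ((2 : ℝ) / 3) := by nlinarith
    linarith
  have h4 : t ^ (1 / 2 - δ) ≤ t := by
    calc t ^ (1 / 2 - δ) ≤ t ^ (1 : ℝ) := Real.rpow_le_rpow_of_exponent_le ht1.le (by linarith)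
      _ = t := Real.rpow_one t
  have h5 : C * t ^ (1 / 2 - δ) ≤ |C| * t :=
    (mul_le_mul_of_nonneg_right (le_abs_self C) (by positivity)).trans
      (mul_le_mul_of_nonneg_left h4 hC)
  have h6 : t ^ 3 ≤ ((e.2 : ℤ) : ℝ) ^ 2 + |((e.2 : ℤ) : ℝ) ^ 2 - ((e.1 : ℤ) : ℝ) ^ 3| := by
    have h7 : t ^ 3 = |((e.1 : ℤ) : ℝ) ^ 3| := by rw [ht, abs_pow]
    rw [h7]
    have h8 := abs_sub_abs_le_abs_sub (((e.1 : ℤ) : ℝ) ^ 3) (((e.2 : ℤ) : ℝ) ^ 2)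
    rw [abs_sub_comm, abs_of_nonneg (sq_nonneg ((e.2 : ℤ) : ℝ))] at h8
    linarith
  have h9 : ((e.2 : ℤ) : ℝ) ^ 2 ≤ X ^ 2 := by
    rw [← sq_abs]
    exact pow_le_pow_left₀ (abs_nonneg _) hy 2
  have h10 : t ^ 3 ≤ X ^ 2 + |C| * t := by linarith
  set D : ℝ := 2 + 2 * |C| with hD
  have hD2 : 2 ≤ D := by rw [hD]; linarith
  have h11 : (D * X ^ ((2 : ℝ) / 3)) ^ 3 < t ^ 3 := pow_lt_pow_left₀ hcon (by positivity) (by norm_num)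
  have h12 : (X ^ ((2 : ℝ) / 3)) ^ 3 = X ^ 2 := by
    rw [← Real.rpow_natCast, ← Real.rpow_mul hX0.le]
    norm_num
  rw [mul_pow, h12] at h11
  have h13 : D ≤ t := by nlinarith
  have h14 : D ^ 2 * t ≤ t ^ 3 := by
    have : D ^ 2 ≤ t ^ 2 := pow_le_pow_left₀ (by linarith) h13 2
    nlinarith
  have h15 : 2 * |C| ≤ D ^ 2 := by nlinarith
  have h16 : 2 * (|C| * t) ≤ D ^ 2 * t := by nlinarith
  have h17 : 8 ≤ D ^ 3 := by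
    calc (8 : ℝ) = 2 ^ 3 := by norm_num
      _ ≤ D ^ 3 := pow_le_pow_left₀ (by norm_num) hD2 3
  have hX2 : 0 < X ^ 2 := by positivity
  nlinarith

theorem count_y (C δ : ℝ) (h0 : 0 ≤ δ) (h1 : δ ≤ 1 / 2) (ε : ℝ) (hε : 0 < ε) : ∃ K : ℝ, ∀ X : ℝ, 1 ≤ X →
    {e | e ∈ Exc C δ ∧ |((e.2 : ℤ) : ℝ)| ≤ X}.Finite ∧
      ({e | e ∈ Exc C δ ∧ |((e.2 : ℤ) : ℝ)| ≤ X}.ncard : ℝ) ≤ K * X ^ (2 / 9 - δ / 9 + ε) := by
  obtain ⟨K, hK⟩ := count_x C δ h0 h1 ε hε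
  set D : ℝ := 2 + 2 * |C| with hD
  have hD2 : 2 ≤ D := by
    have := abs_nonneg C
    rw [hD]
    linarith
  refine ⟨|K| * D ^ (1 / 3 - δ / 6 + ε), fun X hX => ?_⟩
  have hX0 : 0 < X := by linarith
  have hP1 : 1 ≤ X ^ ((2 : ℝ) / 3) := Real.one_le_rpow hX (by norm_num)
  have hY : 1 ≤ D * X ^ ((2 : ℝ) / 3) := by nlinarith
  obtain ⟨hfin, hcard⟩ := hK _ hY
  have hsub : {e | e ∈ Exc C δ ∧ |((e.2 : ℤ) : ℝ)| ≤ X} ⊆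
      {e | e ∈ Exc C δ ∧ |((e.1 : ℤ) : ℝ)| ≤ D * X ^ ((2 : ℝ) / 3)} := by
    rintro e ⟨he, hy⟩
    exact ⟨he, x_le C δ h0 h1 e he X hX hy⟩
  refine ⟨hfin.subset hsub, ?_⟩
  have h2 : ({e | e ∈ Exc C δ ∧ |((e.2 : ℤ) : ℝ)| ≤ X}.ncard : ℝ) ≤
      ({e | e ∈ Exc C δ ∧ |((e.1 : ℤ) : ℝ)| ≤ D * X ^ ((2 : ℝ) / 3)}.ncard : ℝ) := by
    exact_mod_cast Set.ncard_le_ncard hsub hfin
  have h3 : (D * X ^ ((2 : ℝ) / 3)) ^ (1 / 3 - δ / 6 + ε) ≤ D ^ (1 / 3 - δ / 6 + ε) * X ^ (2 / 9 - δ / 9 + ε) := by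
    rw [Real.mul_rpow (by linarith) (by positivity), ← Real.rpow_mul hX0.le]
    apply mul_le_mul_of_nonneg_left _ (by positivity)
    apply Real.rpow_le_rpow_of_exponent_le hX
    linarith
  calc ({e | e ∈ Exc C δ ∧ |((e.2 : ℤ) : ℝ)| ≤ X}.ncard : ℝ)
      ≤ K * (D * X ^ ((2 : ℝ) / 3)) ^ (1 / 3 - δ / 6 + ε) := h2.trans hcard
    _ ≤ |K| * (D ^ (1 / 3 - δ / 6 + ε) * X ^ (2 / 9 - δ / 9 + ε)) :=
        (mul_le_mul_of_nonneg_right (le_abs_self K) (by positivity)).trans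
          (mul_le_mul_of_nonneg_left h3 (abs_nonneg K))
    _ = |K| * D ^ (1 / 3 - δ / 6 + ε) * X ^ (2 / 9 - δ / 9 + ε) := by ring

theorem Exc.mono {C C' δ : ℝ} (h : C ≤ C') : Exc C δ ⊆ Exc C' δ := fun _ he =>
  ⟨he.1, he.2.trans (mul_le_mul_of_nonneg_right h (Real.rpow_nonneg (abs_nonneg _) _))⟩

/-- from the counts to the exceptional sets of target points -/
theorem main {Y : Type} [MetricSpace Y] [MeasurableSpace Y] [BorelSpace Y] (p : ℤ × ℤ → Y) (H : ℤ × ℤ → ℝ) (δ s τ : ℝ)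
    (hs : 0 ≤ s) (hτ : 0 < τ) (h : ∀ C ε : ℝ, 0 < ε → ∃ K : ℝ, ∀ X : ℝ, 1 ≤ X → {e | e ∈ Exc C δ ∧ H e ≤ X}.Finite ∧
      (({e | e ∈ Exc C δ ∧ H e ≤ X}).ncard : ℝ) ≤ K * X ^ (s + ε)) :
    ∃ Z : Set Y, dimH Z ≤ ENNReal.ofReal (s / τ) ∧ ∀ z, z ∉ Z → ∀ C c : ℝ,
      {e : ℤ × ℤ | e ∈ Exc C δ ∧ dist (p e) z ≤ c * (max 1 (H e)) ^ (-τ)}.Finite := by
  have h1 : ∀ m : ℕ, ∃ Z : Set Y, dimH Z ≤ ENNReal.ofReal (s / τ) ∧ ∀ z, z ∉ Z → ∀ c : ℝ,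
      {e | e ∈ Exc m δ ∧ dist (p e) z ≤ c * (max 1 (H e)) ^ (-τ)}.Finite := by
    intro m
    refine fin_lim p (Exc m δ) (fun e => max 1 (H e)) (fun e => le_max_left _ _) s hs (fun ε hε => ?_) τ hτ
    obtain ⟨K, hK⟩ := h m ε hε
    refine ⟨K, fun T hT => ?_⟩
    have e : {e | e ∈ Exc (m : ℝ) δ ∧ max 1 (H e) ≤ T} = {e | e ∈ Exc (m : ℝ) δ ∧ H e ≤ T} := by
      ext e
      exact ⟨fun h => ⟨h.1, (le_max_right _ _).trans h.2⟩, fun h => ⟨h.1, max_le hT h.2⟩⟩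
    rw [e]
    exact hK T hT
  choose Z hZ hz using h1
  refine ⟨⋃ m, Z m, ?_, fun z hzZ C c => ?_⟩
  · rw [dimH_iUnion]
    exact iSup_le hZ
  · obtain ⟨m, hm⟩ := exists_nat_ge C
    refine (hz m z (fun hh => hzZ (Set.mem_iUnion.2 ⟨_, hh⟩)) c).subset ?_
    rintro e ⟨h2, h3⟩
    exact ⟨Exc.mono hm h2, h3⟩

theorem pp_mono {n : ℕ} {T T' : ℝ} (h : T ≤ T') {m : ℕ} (hm : Pool.Agent.Q138.AJ.Re734edb.PowerProduct n T m) :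
    Pool.Agent.Q138.AJ.Re734edb.PowerProduct n T' m := by
  obtain ⟨b, e, h1, h2⟩ := hm
  exact ⟨b, e, fun i => ⟨(h1 i).1, (h1 i).2.trans h⟩, h2⟩

/-- comparison of the sets of close ratios -/
theorem ratios_sub {n : ℕ} {δ δ' K K' T T' : ℝ} (hT : 1 ≤ T) (hTT : T ≤ T') (hK : T' ^ K' ≤ T ^ K) (hK0 : 0 ≤ K) (hδ : δ' ≤ δ) :
    Pool.Agent.Q138.AJ.Re734edb.closeRatios n δ K T ⊆ Pool.Agent.Q138.AJ.Re734edb.closeRatios n δ' K' T' := by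
  rintro r ⟨x, y, h1, h2, h3, h4, h5, h6⟩
  have h8 : (1 : ℝ) ≤ x := (Real.one_le_rpow hT hK0).trans h3
  exact ⟨x, y, pp_mono hTT h1, pp_mono hTT h2, hK.trans h3, h4,
    h5.trans (Real.rpow_le_rpow_of_exponent_le h8 (by linarith)), h6⟩

/-- the third part for given `n`, `δ` -/
theorem ratios_zero {Y : Type} [MetricSpace Y] [MeasurableSpace Y] [BorelSpace Y] (p : ℚ → Y) (n : ℕ) (δ : ℝ) (hδ : 0 < δ) :
    ∃ Z : Set Y, dimH Z = 0 ∧ ∀ z, z ∉ Z → ∀ θ D : ℝ, 0 < θ → ∃ N : ℕ, ∀ᶠ T : ℝ in atTop,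
      ∀ r ∈ Pool.Agent.Q138.AJ.Re734edb.closeRatios n δ N T, D * T ^ (-θ) < dist (p r) z := by
  refine zero_eps p (fun N T => Pool.Agent.Q138.AJ.Re734edb.closeRatios n δ N T) fun ε hε => ?_
  obtain ⟨K, C, hK, hC, h⟩ := Pool.Agent.Q138.AJ.Re734edb.result n δ ε hδ hε
  obtain ⟨N, hN⟩ := exists_nat_gt (2 * K)
  refine ⟨N, fun θ hθ => ?_⟩
  refine dimH_map p _ (fun T => Pool.Agent.Q138.AJ.Re734edb.closeRatios n δ K T) θ ε C 1 2 hθ hε.le h ?_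
  intro T T' h2 h3 h4
  refine ratios_sub (by linarith) h3 ?_ (by positivity) le_rfl
  have hT0 : 0 < T := by linarith
  calc T' ^ K ≤ (T ^ 2) ^ K := Real.rpow_le_rpow (by linarith) (by nlinarith) hK.le
    _ = T ^ (2 * K) := by rw [← Real.rpow_natCast, ← Real.rpow_mul hT0.le]; norm_num
    _ ≤ T ^ (N : ℝ) := Real.rpow_le_rpow_of_exponent_le (by linarith) hN.le

/-- **Theorem.** -/
theorem result (Y : Type) [MetricSpace Y] [MeasurableSpace Y] [BorelSpace Y] :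
    (∀ (p : ℤ × ℤ → Y) (δ τ : ℝ), 0 ≤ δ → δ ≤ 1 / 2 → 0 < τ →
      (∃ Z : Set Y, dimH Z ≤ ENNReal.ofReal ((1 / 3 - δ / 6) / τ) ∧ ∀ z, z ∉ Z → ∀ C c : ℝ,
        {e : ℤ × ℤ | e.2 ^ 2 ≠ e.1 ^ 3 ∧ dist (p e) z ≤ c * (max 1 |(e.1 : ℝ)|) ^ (-τ) ∧
          |(e.2 : ℝ) ^ 2 - (e.1 : ℝ) ^ 3| ≤ C * |(e.1 : ℝ)| ^ (1 / 2 - δ)}.Finite) ∧
      (∃ Z : Set Y, dimH Z ≤ ENNReal.ofReal ((2 / 9 - δ / 9) / τ) ∧ ∀ z, z ∉ Z → ∀ C c : ℝ,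
        {e : ℤ × ℤ | e.2 ^ 2 ≠ e.1 ^ 3 ∧ dist (p e) z ≤ c * (max 1 |(e.2 : ℝ)|) ^ (-τ) ∧
          |(e.2 : ℝ) ^ 2 - (e.1 : ℝ) ^ 3| ≤ C * |(e.1 : ℝ)| ^ (1 / 2 - δ)}.Finite)) ∧
    ∀ p : ℚ → Y, ∃ Z : Set Y, dimH Z = 0 ∧ ∀ z, z ∉ Z → ∀ (n : ℕ) (δ θ D : ℝ), 0 < δ → 0 < θ → ∃ K : ℝ, ∀ᶠ B : ℝ in atTop,
      ∀ x y : ℕ, Pool.Agent.Q138.AJ.Re734edb.PowerProduct n B x → Pool.Agent.Q138.AJ.Re734edb.PowerProduct n B y →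
        B ^ K ≤ (x : ℝ) → x ^ 3 ≠ y ^ 2 → dist (p ((x : ℚ) ^ 3 / (y : ℚ) ^ 2)) z ≤ D * B ^ (-θ) →
          (x : ℝ) ^ (3 - δ) < |(x : ℝ) ^ 3 - (y : ℝ) ^ 2| := by
  refine ⟨fun p δ τ h0 h1 hτ => ⟨?_, ?_⟩, fun p => ?_⟩
  · obtain ⟨Z, hZ, hz⟩ := main p (fun e => |((e.1 : ℤ) : ℝ)|) δ (1 / 3 - δ / 6) τ (by linarith) hτ
      (fun C ε hε => count_x C δ h0 h1 ε hε)
    refine ⟨Z, hZ, fun z hzZ C c => (hz z hzZ C c).subset ?_⟩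
    rintro e ⟨h2, h3, h4⟩
    exact ⟨⟨h2, h4⟩, h3⟩
  · obtain ⟨Z, hZ, hz⟩ := main p (fun e => |((e.2 : ℤ) : ℝ)|) δ (2 / 9 - δ / 9) τ (by linarith) hτ
      (fun C ε hε => count_y C δ h0 h1 ε hε)
    refine ⟨Z, hZ, fun z hzZ C c => (hz z hzZ C c).subset ?_⟩
    rintro e ⟨h2, h3, h4⟩
    exact ⟨⟨h2, h4⟩, h3⟩
  · choose Z hZ hz using fun i : ℕ × ℕ => ratios_zero p i.1 (1 / ((i.2 : ℝ) + 1)) (by positivity)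
    refine ⟨⋃ i, Z i, ?_, fun z hzZ n δ θ D hδ hθ => ?_⟩
    · rw [dimH_iUnion]
      simp [hZ]
    · obtain ⟨k, hk⟩ := exists_nat_one_div_lt hδ
      obtain ⟨N, hN⟩ := hz ⟨n, k⟩ z (fun hh => hzZ (Set.mem_iUnion.2 ⟨_, hh⟩)) θ D hθ
      refine ⟨N, ?_⟩
      filter_upwards [hN, eventually_ge_atTop 1] with B hB hB1 x y hx hy hxB hxy hd
      by_contra hcon
      push Not at hcon
      have h2 := hB _ (ratios_sub (δ := δ) hB1 le_rfl le_rfl (by positivity) hk.le ⟨x, y, hx, hy, hxB, hxy, hcon, rfl⟩)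
      linarith

end Pool.Agent.Results.MP_e734ed_nt.PairsNearGivenPoints
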