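import Mathlib
import Pool.Agent.Q29.SE.PFree

/-!
# The inequality of Hall's conjecture for the part prime to `p` of `y ^ 2 - x ^ 3`

Let `t = p ^ ν` be a power of a prime number `p`, and let `x` and `y` be integers of the form

  `x = ∑_{l ≤ r} u_l t^(m_l) ∏_i F_i(t)^(e_il)`,  `y = ∑_{l ≤ r} w_l t^(m_l) ∏_i F_i(t)^(e_il)`

with polynomials `F_i` (any number of them, of total degree at most `D`) with leading coefficients
and constant terms `± 1`. The coefficients of the `F_i` and the `u_l`, `w_l` are at most `H`,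
`∑_i e_il ≤ N`, the `m_l` are arbitrary.  Let `p` not divide both `x` and `y`, and let `w ≠ 0` be the
part prime to `p` of `y ^ 2 - x ^ 3`.  If `t` is at least `T`, a power of `H N` (with an exponent
which depends only on `r` and `D`), then `|x| ≤ T ^ 6 w ^ 2` and `|y| ≤ T ^ 6 |w| ^ 3`; so
`|y ^ 2 - x ^ 3| ≥ |w| ≥ |x| ^ (1 / 2 - ε)` if `|x|` is at least `T ^ (3 / ε)`. The same for
`x ^ n - y ^ m`.
-/

set_option autoImplicit false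

namespace Pool.Agent.Results.MP_e734ed_nt.PrimeToPPart

open Polynomial

/-- `x` and `y` are sums of `r` terms `u_l t^(m_l) ∏_i F_i(t)^(e_il)`, `w_l t^(m_l) ∏_i F_i(t)^(e_il)`
with integers `u_l`, `w_l` of absolute value at most `H`, arbitrary natural numbers `m_l`,
polynomials `F_i` of total degree at most `D` with integer coefficients of absolute value at most
`H` and leading coefficients and constant terms `± 1`, and `∑_i e_il ≤ N`. -/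
def PowerSums (t : ℕ) (r D N H : ℕ) (x y : ℤ) : Prop :=
  ∃ (q : ℕ) (F : Fin q → ℤ[X]) (m : Fin r → ℕ) (e : Fin r → Fin q → ℕ) (u w : Fin r → ℤ),
    ∑ i, (F i).natDegree ≤ D ∧ (∀ i, |(F i).leadingCoeff| = 1) ∧ (∀ i, |(F i).coeff 0| = 1) ∧
    (∀ i j, |(F i).coeff j| ≤ H) ∧ (∀ l, ∑ i, e l i ≤ N) ∧
    (∀ l, |u l| ≤ H) ∧ (∀ l, |w l| ≤ H) ∧
    x = ∑ l, u l * ((t : ℤ) ^ m l * ∏ i, (F i).eval (t : ℤ) ^ e l i) ∧
    y = ∑ l, w l * ((t : ℤ) ^ m l * ∏ i, (F i).eval (t : ℤ) ^ e l i)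

/-- `T = (2 (r + 1) (d + 1) H N) ^ ((D + 5) 4 ^ ((d + 1) ^ r))` -/
def T₀ (r d D N H : ℕ) : ℕ := (2 * (r + 1) * (d + 1) * H * N) ^ ((D + 5) * 4 ^ ((d + 1) ^ r))

open Pool.Agent.Q29.SE Pool.Agent.Q103.SD in
theorem general (n m : ℕ) (hn : 2 ≤ n) (hm : 2 ≤ m) (r D N H : ℕ) (hr : 1 ≤ r) (hN : 1 ≤ N)
    (hH : 1 ≤ H) (p ν : ℕ) (hp : p.Prime) {Y : ℝ}
    (hY : YY r (max n m) D N 2 H H ≤ Y)
    (ht : 4 * Y * (((max n m * N : ℕ) : ℝ) * H) ≤ ((p ^ ν : ℕ) : ℝ))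
    (x y : ℤ) (hk : x ^ n ≠ y ^ m) (hpow : PowerSums (p ^ ν) r D N H x y)
    (hcop : ¬ ((p : ℤ) ∣ x ∧ (p : ℤ) ∣ y)) (j : ℕ) (w : ℤ)
    (hw : x ^ n - y ^ m = (p : ℤ) ^ j * w) (hpw : ¬ (p : ℤ) ∣ w) :
    |(x : ℝ)| ^ (m * n - m - n) ≤ (2 * Y) ^ (m * n) * |(w : ℝ)| ^ m ∧
      |(y : ℝ)| ^ (m * n - m - n) ≤ (2 * Y) ^ (m * n) * |(w : ℝ)| ^ n := by
  obtain ⟨q, P, mm, e, u, u', hD, hlc, h0, hPH, heN, hu, hu', hx, hy⟩ := hpow
  obtain ⟨v, hv⟩ : ∃ v : Fin r → Fin 2 → ℤ, v = fun l => ![u l, u' l] := ⟨_, rfl⟩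
  have hvH : ∀ l i, |((v l i : ℤ) : ℝ)| ≤ H := by
    intro l i
    have h1 : |(v l i : ℤ)| ≤ H := by
      rw [hv]
      fin_cases i
      · simpa using hu l
      · simpa using hu' l
    exact_mod_cast h1
  have h1 : ∀ i, (pt P mm e v i).eval ((p ^ ν : ℕ) : ℤ) =
      ∑ l, v l i * (((p ^ ν : ℕ) : ℤ) ^ mm l * ∏ i, (P i).eval ((p ^ ν : ℕ) : ℤ) ^ e l i) := by
    intro i
    unfold pt
    rw [eval_finsetSum]
    refine Finset.sum_congr rfl fun l _ => ?_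
    rw [eval_mul, eval_C, eval_MP, one_mul]
  refine hall_pfree hn hm hr hD (by exact_mod_cast hH) hlc h0 (fun i j => by exact_mod_cast hPH i j)
    mm e hN heN v hvH hp hY ht x y ?_ ?_ hk hcop hw hpw
  · rw [h1, hv]
    simpa using hx
  · rw [h1, hv]
    simpa using hy

theorem result (r D N H : ℕ) (hr : 1 ≤ r) (hN : 1 ≤ N) (hH : 1 ≤ H) :
    (∀ p ν : ℕ, p.Prime → T₀ r 3 D N H ≤ p ^ ν → ∀ x y : ℤ, PowerSums (p ^ ν) r D N H x y →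
      ¬ ((p : ℤ) ∣ x ∧ (p : ℤ) ∣ y) → ∀ (j : ℕ) (w : ℤ), y ^ 2 - x ^ 3 = (p : ℤ) ^ j * w →
      ¬ (p : ℤ) ∣ w →
      |x| ≤ (T₀ r 3 D N H : ℤ) ^ 6 * |w| ^ 2 ∧ |y| ≤ (T₀ r 3 D N H : ℤ) ^ 6 * |w| ^ 3 ∧
      ∀ ε : ℝ, 0 < ε → (T₀ r 3 D N H : ℝ) ^ (3 / ε) ≤ |(x : ℝ)| →
        |(x : ℝ)| ^ (1 / 2 - ε) ≤ |(w : ℝ)|) ∧
    ∀ (n m : ℕ), 2 ≤ n → 2 ≤ m → ∀ p ν : ℕ, p.Prime → T₀ r (max n m) D N H ≤ p ^ ν →
      ∀ x y : ℤ, PowerSums (p ^ ν) r D N H x y → ¬ ((p : ℤ) ∣ x ∧ (p : ℤ) ∣ y) →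
      ∀ (j : ℕ) (w : ℤ), x ^ n - y ^ m = (p : ℤ) ^ j * w → ¬ (p : ℤ) ∣ w →
      |x| ^ (m * n - m - n) ≤ (T₀ r (max n m) D N H : ℤ) ^ (m * n) * |w| ^ m ∧
      |y| ^ (m * n - m - n) ≤ (T₀ r (max n m) D N H : ℤ) ^ (m * n) * |w| ^ n := by
  have hH' : (1 : ℝ) ≤ H := by exact_mod_cast hH
  have hE : ∀ d, 2 ≤ d → Pool.Agent.Q29.SE.expo r d D + 4 ≤ (D + 5) * 4 ^ ((d + 1) ^ r) := by
    intro d hd
    unfold Pool.Agent.Q29.SE.expo
    have h1 : 4 ≤ 4 ^ ((d + 1) ^ r) := by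
      calc 4 = 4 ^ 1 := by norm_num
        _ ≤ 4 ^ ((d + 1) ^ r) := Nat.pow_le_pow_right (by norm_num) (Nat.one_le_pow _ _ (by omega))
    have h2 : (D + 5) * 4 ^ ((d + 1) ^ r) = (D + 4) * 4 ^ ((d + 1) ^ r) + 4 ^ ((d + 1) ^ r) := by
      ring
    omega
  have hb : ∀ d, 2 ≤ d → ∃ Y : ℝ, 1 ≤ Y ∧ Pool.Agent.Q29.SE.YY r d D N 2 H H ≤ Y ∧
      2 * Y ≤ (T₀ r d D N H : ℝ) ∧ 4 * Y * (((d * N : ℕ) : ℝ) * H) ≤ (T₀ r d D N H : ℝ) := by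
    intro d hd
    obtain ⟨Z, hZ⟩ : ∃ Z : ℝ, Z = 2 * ((r : ℝ) + 1) * (d + 1) * H * N := ⟨_, rfl⟩
    obtain ⟨h1, h2⟩ := Pool.Agent.Q29.SE.YY_le (D := D) hr hd hN hH'
    rw [← hZ] at h1 h2
    have hT : (T₀ r d D N H : ℝ) = Z ^ ((D + 5) * 4 ^ ((d + 1) ^ r)) := by
      unfold T₀
      rw [hZ]
      push_cast
      ring
    have hZ8 : 8 ≤ Z := by
      have : 8 ≤ 2 * (r + 1) * (d + 1) * H * N := by
        calc 8 ≤ 2 * (1 + 1) * (2 + 1) * 1 * 1 := by norm_num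
          _ ≤ _ := by gcongr
      rw [hZ]
      exact_mod_cast this
    have h4 : Z ^ (Pool.Agent.Q29.SE.expo r d D + 4) ≤ (T₀ r d D N H : ℝ) := by
      rw [hT]
      exact pow_le_pow_right₀ (by linarith) (hE d hd)
    have h5 : Z ^ (Pool.Agent.Q29.SE.expo r d D + 3) ≤ Z ^ (Pool.Agent.Q29.SE.expo r d D + 4) :=
      pow_le_pow_right₀ (by linarith) (by omega)
    have h6 : 0 ≤ Z ^ (Pool.Agent.Q29.SE.expo r d D + 1) * (((d * N : ℕ) : ℝ) * H) := by positivity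
    refine ⟨Z ^ (Pool.Agent.Q29.SE.expo r d D + 1), one_le_pow₀ (by linarith), h1, ?_, by linarith⟩
    have h7 : Z ^ (Pool.Agent.Q29.SE.expo r d D + 4) =
        Z ^ 3 * Z ^ (Pool.Agent.Q29.SE.expo r d D + 1) := by
      rw [← pow_add]
      congr 1
      omega
    have h8 : (2 : ℝ) ≤ Z ^ 3 := by
      calc (2 : ℝ) ≤ 8 ^ 3 := by norm_num
        _ ≤ _ := by gcongr
    have h9 := mul_le_mul_of_nonneg_right h8
      (by positivity : 0 ≤ Z ^ (Pool.Agent.Q29.SE.expo r d D + 1))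
    linarith
  have main : ∀ (n m : ℕ), 2 ≤ n → 2 ≤ m → ∀ p ν : ℕ, p.Prime → T₀ r (max n m) D N H ≤ p ^ ν →
      ∀ x y : ℤ, PowerSums (p ^ ν) r D N H x y → ¬ ((p : ℤ) ∣ x ∧ (p : ℤ) ∣ y) →
      ∀ (j : ℕ) (w : ℤ), x ^ n - y ^ m = (p : ℤ) ^ j * w → ¬ (p : ℤ) ∣ w →
      |(x : ℝ)| ^ (m * n - m - n) ≤ (T₀ r (max n m) D N H : ℝ) ^ (m * n) * |(w : ℝ)| ^ m ∧
      |(y : ℝ)| ^ (m * n - m - n) ≤ (T₀ r (max n m) D N H : ℝ) ^ (m * n) * |(w : ℝ)| ^ n := by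
    intro n m hn hm p ν hp ht x y hpow hcop j w hw hpw
    have hd : 2 ≤ max n m := le_trans hn (le_max_left n m)
    obtain ⟨Y, hY1, hY, hY2, hY3⟩ := hb _ hd
    have htR : (T₀ r (max n m) D N H : ℝ) ≤ ((p ^ ν : ℕ) : ℝ) := by exact_mod_cast ht
    have hk : x ^ n ≠ y ^ m := by
      intro h
      rw [h, sub_self] at hw
      have hp0 : (p : ℤ) ^ j ≠ 0 := pow_ne_zero _ (by exact_mod_cast hp.ne_zero)
      have : w = 0 := by
        rcases mul_eq_zero.mp hw.symm with h1 | h1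
        · exact absurd h1 hp0
        · exact h1
      exact hpw (this ▸ dvd_zero _)
    obtain ⟨h1, h2⟩ := general n m hn hm r D N H hr hN hH p ν hp hY (hY3.trans htR) x y hk hpow
      hcop j w hw hpw
    constructor
    · refine h1.trans ?_
      gcongr
    · refine h2.trans ?_
      gcongr
  refine ⟨?_, ?_⟩
  · intro p ν hp ht x y hpow hcop j w hw hpw
    have hmax : max 3 2 = 3 := rfl
    have h := main 3 2 (by norm_num) (by norm_num) p ν hp (by rw [hmax]; exact ht) x y hpow hcop j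
      (-w) (by
        rw [mul_neg, ← hw]
        ring) (by rwa [dvd_neg])
    rw [hmax] at h
    norm_num at h
    obtain ⟨h1, h2⟩ := h
    rw [← sq_abs (w : ℝ)] at h1
    refine ⟨by exact_mod_cast h1, by exact_mod_cast h2, ?_⟩
    intro ε hε hx
    obtain ⟨T, hT⟩ : ∃ T : ℝ, T = (T₀ r 3 D N H : ℝ) := ⟨_, rfl⟩
    rw [← hT] at h1 hx
    have hT1 : 1 ≤ T := by
      rw [hT]
      have : 1 ≤ T₀ r 3 D N H := by
        unfold T₀
        apply Nat.one_le_pow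
        positivity
      exact_mod_cast this
    have hx1 : 1 ≤ |(x : ℝ)| := (Real.one_le_rpow hT1 (by positivity)).trans hx
    have hx0 : 0 < |(x : ℝ)| := by linarith
    have h3 : T ^ (3 : ℝ) ≤ |(x : ℝ)| ^ ε := by
      calc T ^ (3 : ℝ) = (T ^ (3 / ε)) ^ ε := by
            rw [← Real.rpow_mul (by linarith)]
            congr 1
            field_simp
        _ ≤ |(x : ℝ)| ^ ε := Real.rpow_le_rpow (by positivity) hx hε.le
    have h4 : |(x : ℝ)| ^ (1 / 2 : ℝ) ≤ T ^ (3 : ℝ) * |(w : ℝ)| := by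
      have h5 : |(x : ℝ)| ≤ (T ^ (3 : ℝ) * |(w : ℝ)|) ^ 2 := by
        refine h1.trans (le_of_eq ?_)
        rw [mul_pow]
        congr 1
        rw [← Real.rpow_natCast (T ^ (3 : ℝ)) 2, ← Real.rpow_mul (by linarith)]
        norm_num
      rw [← Real.sqrt_eq_rpow]
      rw [← Real.sqrt_sq (by positivity : 0 ≤ T ^ (3 : ℝ) * |(w : ℝ)|)]
      exact Real.sqrt_le_sqrt h5
    rw [Real.rpow_sub hx0, div_le_iff₀ (by positivity)]
    refine h4.trans ?_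
    rw [mul_comm]
    exact mul_le_mul_of_nonneg_left h3 (abs_nonneg _)
  · intro n m hn hm p ν hp ht x y hpow hcop j w hw hpw
    have h := main n m hn hm p ν hp ht x y hpow hcop j w hw hpw
    exact ⟨by exact_mod_cast h.1, by exact_mod_cast h.2⟩

end Pool.Agent.Results.MP_e734ed_nt.PrimeToPPart
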