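import Pool.Agent.Q84.NX.Fam
import Pool.Agent.Results.MP_e734ed_nt.SparseExceptions

/-!
# Hall's inequality for all pairs related to the primes of a string

Let `C` be real, `0 ≤ β ≤ 1/2` and `0 < δ < 6 / (2 - β)`. There is `c > 0`, for all `κ > 0` and `m` there is `c' > 0` and
for every `Z` a number `D` with the following property. For every large `X` there is a set `S` of at most
`(log X) ^ (49 / 50)` primes, all larger than `Z`, such that for EVERY function `f` with values `1` and `-1` on the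
primes at least `X ^ (1 - κ)` integers `n`, `X < n ≤ 3X`, satisfy: the interval `[n, n + D]` contains at least `m`
primes, and for every prime `p` in it

* the Legendre symbol `(p / q)` is `f q` for all odd primes `q ≤ c' log X` outside `S`;
* ALL integers `x, y ≠ 0` with `y² ≠ x³` and `|x| ≤ p ^ (6 / (2 - β) - δ)` such that some divisor `r` of
  `x y (y² - x³)` is within `p ^ c` of a positive multiple of `p` (for instance: `p` divides `x` or `y`) satisfy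
  `|y² - x³| > C |x| ^ (1/2 - β)`.

For `β = 0` this is the strong form of Hall's inequality, with an arbitrarily large constant, for `|x| ≤ p ^ (3 - δ)`.

Method: the starting result `SparseExceptions` counts the exceptional pairs; the divisor bound; few primes divide a
number near a divisor of an exceptional product (`Q84/NX/Core`, `Q84/NX/TriJ`); the Maynard-Tao theorem relative to a
modulus which is a small power of `X`, in the form that it avoids arbitrary exceptional sets of size `X ^ (1 - η)`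
(`Q84/MB/E1-E4`), gives the strings.
-/

set_option autoImplicit false

open scoped Classical

namespace Pool.Agent.Results.MP_e734ed_nt.StringsOfPrimes

open Finset Filter

/-- Hall's inequality for all `x, y` with `|x| ≤ p ^ A` for which `x y (y² - x³)` has a divisor `r` within `p ^ c` of a
positive multiple of `p` -/
def Fine (C β A c : ℝ) (p : ℕ) : Prop :=
  ∀ (x y : ℤ) (k r : ℕ), x ≠ 0 → y ≠ 0 → y ^ 2 ≠ x ^ 3 → |(x : ℝ)| ≤ (p : ℝ) ^ A → 1 ≤ k →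
    |(r : ℝ) - k * p| ≤ (p : ℝ) ^ c → (r : ℤ) ∣ x * y * (y ^ 2 - x ^ 3) →
    C * |(x : ℝ)| ^ (1 / 2 - β) < |(y : ℝ) ^ 2 - (x : ℝ) ^ 3|

/-- the size of an exceptional product -/
theorem size (C β : ℝ) (hβ0 : 0 ≤ β) (x y : ℤ) (N : ℕ) (hN2 : 2 ≤ N) (hNC : C ≤ N) (hx : x ≠ 0)
    (hxN : |(x : ℝ)| ≤ N) (h : |(y : ℝ) ^ 2 - (x : ℝ) ^ 3| ≤ C * |(x : ℝ)| ^ (1 / 2 - β)) :
    (x * y * (y ^ 2 - x ^ 3)).natAbs ≤ N ^ 5 := by
  have hNr : (2 : ℝ) ≤ N := by exact_mod_cast hN2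
  have hx1 : (1 : ℝ) ≤ |(x : ℝ)| := by
    rw [← Int.cast_abs]
    exact_mod_cast Int.one_le_abs hx
  have hp : |(x : ℝ)| ^ (1 / 2 - β) ≤ N := by
    calc |(x : ℝ)| ^ (1 / 2 - β) ≤ |(x : ℝ)| ^ (1 : ℝ) := Real.rpow_le_rpow_of_exponent_le hx1 (by linarith)
      _ = |(x : ℝ)| := Real.rpow_one _
      _ ≤ N := hxN
  have hp0 : 0 ≤ |(x : ℝ)| ^ (1 / 2 - β) := by positivity
  have h1 : |(y : ℝ) ^ 2 - (x : ℝ) ^ 3| ≤ (N : ℝ) ^ 2 := by
    refine h.trans ?_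
    calc C * |(x : ℝ)| ^ (1 / 2 - β) ≤ N * |(x : ℝ)| ^ (1 / 2 - β) := mul_le_mul_of_nonneg_right hNC hp0
      _ ≤ N * N := mul_le_mul_of_nonneg_left hp (by linarith)
      _ = (N : ℝ) ^ 2 := by ring
  have h2 : |(x : ℝ)| ^ 3 ≤ (N : ℝ) ^ 3 := pow_le_pow_left₀ (abs_nonneg _) hxN 3
  have h3 : |(y : ℝ)| ^ 2 ≤ ((N : ℝ) ^ 2) ^ 2 := by
    have h4 : |(y : ℝ)| ^ 2 = (y : ℝ) ^ 2 := sq_abs _
    have h5 : (x : ℝ) ^ 3 ≤ |(x : ℝ)| ^ 3 := by
      rw [← abs_pow]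
      exact le_abs_self _
    have h6 := (abs_le.1 h1).2
    rw [h4]
    have h7 : (N : ℝ) ^ 3 + (N : ℝ) ^ 2 ≤ ((N : ℝ) ^ 2) ^ 2 := by
      have h8 : (N : ℝ) ^ 2 ≤ (N : ℝ) ^ 3 := pow_le_pow_right₀ (by linarith) (by norm_num)
      have h9 : 2 * (N : ℝ) ^ 3 ≤ (N : ℝ) * (N : ℝ) ^ 3 := mul_le_mul_of_nonneg_right hNr (by positivity)
      have h10 : ((N : ℝ) ^ 2) ^ 2 = (N : ℝ) * (N : ℝ) ^ 3 := by ring
      rw [h10]
      linarith
    linarith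
  have h4 : |(y : ℝ)| ≤ (N : ℝ) ^ 2 := (pow_le_pow_iff_left₀ (abs_nonneg _) (by positivity) (by norm_num)).1 h3
  have h5 : (((x * y * (y ^ 2 - x ^ 3)).natAbs : ℕ) : ℝ) = |(x : ℝ)| * |(y : ℝ)| * |(y : ℝ) ^ 2 - (x : ℝ) ^ 3| := by
    rw [Nat.cast_natAbs]
    push_cast
    rw [abs_mul, abs_mul]
  have h6 : (((x * y * (y ^ 2 - x ^ 3)).natAbs : ℕ) : ℝ) ≤ ((N ^ 5 : ℕ) : ℝ) := by
    rw [h5]
    push_cast
    calc |(x : ℝ)| * |(y : ℝ)| * |(y : ℝ) ^ 2 - (x : ℝ) ^ 3| ≤ N * (N : ℝ) ^ 2 * (N : ℝ) ^ 2 := by gcongr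
      _ = (N : ℝ) ^ 5 := by ring
  exact_mod_cast h6

/-- **Theorem.** -/
theorem result (C β δ : ℝ) (hβ0 : 0 ≤ β) (hβ : β ≤ 1 / 2) (hδ : 0 < δ) (hδ1 : δ < 6 / (2 - β)) : ∃ c : ℝ, 0 < c ∧
    ∀ κ : ℝ, 0 < κ → ∀ m : ℕ, ∃ c' : ℝ, 0 < c' ∧
    ∀ Z : ℕ, ∃ D : ℕ, ∃ X₀ : ℝ, ∀ X : ℝ, X₀ ≤ X →
    ∃ S : Finset ℕ, (∀ q ∈ S, q.Prime ∧ Z < q) ∧ (S.card : ℝ) ≤ (Real.log X) ^ (49 / 50 : ℝ) ∧
    ∀ f : ℕ → ℤ, (∀ q, f q = 1 ∨ f q = -1) →
      X ^ (1 - κ) ≤ (((Icc 1 ⌊3 * X⌋₊).filter fun n : ℕ => X < n ∧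
        m ≤ ((Icc n (n + D)).filter Nat.Prime).card ∧
        ∀ p ∈ Icc n (n + D), p.Prime → Fine C β (6 / (2 - β) - δ) c p ∧
          ∀ q : ℕ, q.Prime → q ≠ 2 → (q : ℝ) ≤ c' * Real.log X → q ∉ S → jacobiSym p q = f q).card : ℝ) := by
  obtain ⟨E, hE⟩ : ∃ E : ℕ → Set (ℤ × ℤ), E = fun N : ℕ => {e : ℤ × ℤ | |(e.1 : ℝ)| ≤ (N : ℝ) ∧ e.2 ^ 2 ≠ e.1 ^ 3 ∧
        |(e.2 : ℝ) ^ 2 - (e.1 : ℝ) ^ 3| ≤ C * |(e.1 : ℝ)| ^ (1 / 2 - β)} := ⟨_, rfl⟩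
  have hcount : ∀ ε : ℝ, 0 < ε → ∃ K : ℝ, ∀ N : ℕ, 1 ≤ N → (E N).Finite ∧
      ((E N).ncard : ℝ) ≤ K * (N : ℝ) ^ (1 / 3 - β / 6 + ε) := by
    intro ε hε
    obtain ⟨K, hK⟩ := SparseExceptions.result C ε hε
    refine ⟨K, fun N hN => ?_⟩
    rw [hE]
    exact hK β hβ0 hβ N (by exact_mod_cast hN)
  have hfin : ∀ N : ℕ, 1 ≤ N → (E N).Finite := fun N hN => by
    obtain ⟨K, hK⟩ := hcount 1 one_pos
    exact (hK N hN).1
  obtain ⟨U, hU⟩ : ∃ U : ℕ → Finset ℕ, U = fun N => if h : (E N).Finite then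
      (h.toFinset.image fun e => (e.1 * e.2 * (e.2 ^ 2 - e.1 ^ 3)).natAbs).filter (fun u => 1 ≤ u ∧ u ≤ N ^ 5)
      else ∅ := ⟨_, rfl⟩
  have hα : (0 : ℝ) < 1 / 3 - β / 6 := by linarith
  have hα' : 1 / (1 / 3 - β / 6) = 6 / (2 - β) := by
    rw [div_eq_div_iff hα.ne' (by linarith)]
    ring
  have hδα : δ * (1 / 3 - β / 6) < 1 := by
    rw [lt_div_iff₀ (by linarith)] at hδ1
    nlinarith
  obtain ⟨c, hc, hc4, hmain⟩ := Pool.Agent.Q84.NX.fam_strings 5 (by norm_num) U (1 / 3 - β / 6) δ hα hδ hδα (by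
    intro N u hu
    rw [hU] at hu
    simp only at hu
    split_ifs at hu with h
    · rw [mem_filter] at hu
      exact hu.2
    · simp at hu) (by
    intro ε hε
    obtain ⟨K, hK⟩ := hcount ε hε
    refine ⟨K, fun N hN => ?_⟩
    obtain ⟨h1, h2⟩ := hK N hN
    refine le_trans ?_ h2
    rw [hU]
    simp only [dif_pos h1]
    rw [Nat.cast_le]
    refine (card_filter_le _ _).trans (card_image_le.trans ?_)
    rw [Set.ncard_eq_toFinset_card _ h1])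
  rw [hα'] at hmain
  refine ⟨c, hc, hmain (Fine C β (6 / (2 - β) - δ) c) ?_⟩
  have hA0 : 0 < 6 / (2 - β) - δ := by linarith
  filter_upwards [(tendsto_rpow_atTop hA0).eventually_ge_atTop (max C 2 + 1), eventually_ge_atTop (1 : ℝ)] with X hX hX1
  intro p hpp hXp hp4 hg
  obtain ⟨N, hN⟩ : ∃ N, N = ⌊(4 * X) ^ (6 / (2 - β) - δ)⌋₊ := ⟨_, rfl⟩
  rw [← hN]
  have h4X : X ^ (6 / (2 - β) - δ) ≤ (4 * X) ^ (6 / (2 - β) - δ) :=
    Real.rpow_le_rpow (by linarith) (by linarith) hA0.le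
  have hNmax : max C 2 ≤ N := by
    have := Nat.lt_floor_add_one ((4 * X) ^ (6 / (2 - β) - δ))
    rw [← hN] at this
    linarith
  have hNC : C ≤ N := (le_max_left _ _).trans hNmax
  have hN2 : 2 ≤ N := by
    have : (2 : ℝ) ≤ N := (le_max_right _ _).trans hNmax
    exact_mod_cast this
  unfold Fine at hg
  push Not at hg
  obtain ⟨x, y, k, r, hx, hy, hxy, hxA, hk, hkr, hr, hle⟩ := hg
  have hxN : |(x : ℝ)| ≤ N := by
    have h1 : |(x : ℝ)| ≤ (4 * X) ^ (6 / (2 - β) - δ) :=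
      hxA.trans (Real.rpow_le_rpow (Nat.cast_nonneg _) hp4 hA0.le)
    have h2 : (x.natAbs : ℝ) = |(x : ℝ)| := by
      rw [Nat.cast_natAbs]
      push_cast
      rfl
    rw [← h2] at h1 ⊢
    rw [hN]
    exact_mod_cast Nat.le_floor h1
  have hmem : (x, y) ∈ E N := by
    rw [hE]
    exact ⟨hxN, hxy, hle⟩
  have hne : x * y * (y ^ 2 - x ^ 3) ≠ 0 := mul_ne_zero (mul_ne_zero hx hy) (sub_ne_zero.2 hxy)
  refine ⟨(x * y * (y ^ 2 - x ^ 3)).natAbs, ?_, k, r, hk, hkr, Int.natCast_dvd.1 hr⟩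
  rw [hU]
  simp only [dif_pos (hfin N (by omega))]
  rw [mem_filter, mem_image]
  refine ⟨⟨(x, y), (Set.Finite.mem_toFinset _).2 hmem, rfl⟩, ?_, size C β hβ0 x y N hN2 hNC hx hxN hle⟩
  exact Int.natAbs_pos.2 hne

end Pool.Agent.Results.MP_e734ed_nt.StringsOfPrimes
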